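import Pool.Agent.DMM.Final

/-!
# A counterexample to the conjecture of DeMarco and Mavraki

The base `S` is a point.  The endomorphism `f` of `ℙ⁴` fibres over a product of two Lattès maps
of degree two with complex multiplication by `√-7`; the preperiodic points are Zariski dense in
the quadric threefold `X`, but the only special subvariety containing `X` is `ℙ⁴` itself.
-/

namespace Pool.Agent.Results.MP_dc01aa_ag.SpecialDimensionCounterexample

open Pool.Agent.DMM

/-- Over every algebraically closed field of characteristic zero there is an endomorphism `f` of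
`ℙ⁴` of degree two (given explicitly) such that the quadric threefold `X` is irreducible, is not
the whole space, contains a Zariski dense set of `f`-preperiodic points, and the only weakly
special closed set containing `X` is `ℙ⁴`, which is weakly special. -/
theorem result (K : Type*) [Field K] [IsAlgClosed K] [CharZero K] :
    ∃ a : K, a ^ 2 - a + 2 = 0 ∧ ∃ f : Endo K 5 2, f.poly = fPoly a (1 - a) ∧
      ZIrreducible (Xset K) ∧ Xset K ≠ Set.univ ∧
      (∀ C : Set (PSpace K 5), ZClosed C → {p ∈ Xset K | IsPreperiodic f.map p} ⊆ C →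
        Xset K ⊆ C) ∧
      WeaklySpecial f Set.univ ∧
      ∀ Y : Set (PSpace K 5), ZClosed Y → Xset K ⊆ Y → WeaklySpecial f Y → Y = Set.univ := by
  obtain ⟨s, hs⟩ := IsAlgClosed.exists_pow_nat_eq (-7 : K) (n := 2) (by norm_num)
  have ha : ((1 + s) / 2) ^ 2 - (1 + s) / 2 + 2 = 0 := by
    have : ((1 + s) / 2) ^ 2 - (1 + s) / 2 + 2 = (s ^ 2 + 7) / 4 := by ring
    rw [this, hs]; ring
  have hab : (1 + s) / 2 + (1 - (1 + s) / 2) = 1 := by ring
  have hb := (beta_facts ha hab).1
  exact ⟨(1 + s) / 2, ha, fEndo ha hb, rfl, Xset_irreducible, Xset_ne_univ,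
    Xset_dense ha hab hb, univ_special ha hb,
    fun Y hY hX hs => special_eq_univ ha hab hb hY hX hs⟩

end Pool.Agent.Results.MP_dc01aa_ag.SpecialDimensionCounterexample
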